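import Mathlib

/-!
# Window lemma of the class GAP + SYM, pure numbers (MP_c2305b_co, row 552, section 6)

`W` number of sides of the block, `Q` energy of the chain, `T0` the largest slope, `T` the bound
of the field, `X` length, `H` height of the chain, `w0` number of lower darts, `w1` number of bad
pairs, `N` number of tiles, `Nb` base tiles, `Nt` tiles at the transition level, `Na` steep pairs,
`S` total jump.
-/

namespace C2305bG

lemma T0_lower {R cQ Q X T0 : ℝ} {W : ℝ} (hR : 1 ≤ R) (hQ : cQ * W ^ 3 ≤ Q)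
    (hX : Q ≤ X * T0 ^ 2) (hXW : X ≤ R * W) (hW : 0 < W) : cQ / R * W ^ 2 ≤ T0 ^ 2 := by
  have hR0 : 0 < R := by linarith
  have h1 : X * T0 ^ 2 ≤ R * W * T0 ^ 2 := mul_le_mul_of_nonneg_right hXW (sq_nonneg _)
  have h2 : (cQ / R * W ^ 2) * (R * W) ≤ T0 ^ 2 * (R * W) := by
    have e : (cQ / R * W ^ 2) * (R * W) = cQ * W ^ 3 := by field_simp
    rw [e]
    linarith only [hQ, hX, h1, mul_comm (T0 ^ 2) (R * W)]
  exact le_of_mul_le_mul_right h2 (mul_pos hR0 hW)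

theorem window_numG (R cT cQ a1 A mu cL : ℝ) (hR : 1 ≤ R) (hcT : 0 < cT) (hcQ : 0 < cQ)
    (ha1 : 0 ≤ a1) (hA : 0 ≤ A) (hmu : 0 ≤ mu) (hcL : 0 ≤ cL) :
    ∃ k3 : ℝ, 0 < k3 ∧ ∀ Cb : ℝ, 0 ≤ Cb → ∀ s : ℝ, 1 ≤ s → ∀ C1 : ℝ, 0 ≤ C1 →
    ∃ W0 : ℕ, ∀ W : ℕ, W0 ≤ W → ∃ eta : ℝ, 0 < eta ∧
    ∀ (L T0 T Q X H N Nb Nt Na w0 w1 S : ℝ) (K : ℕ), 0 < L → 0 ≤ T0 → 0 ≤ T → T ≤ 2 * T0 →
      T0 ≤ 2 * eta * L → 0 ≤ H → 0 < X → X ≤ R * W → cQ * (W : ℝ) ^ 3 ≤ Q →
      cT * T0 ^ 2 ≤ Q → Q ≤ X * T0 ^ 2 → H ^ 2 ≤ X * Q → T0 < s * (K + 1) → 0 ≤ N →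
      N ≤ a1 * (X + 2 * R) * (H + R + R * T0) → Nb ≤ a1 * (X + 2 * R) * (R + R * T0) →
      Nt * K ≤ N → 0 ≤ Nt → Na ≤ a1 * (X + 2 * R) * (cL * (H + 1)) →
      w0 ≤ A * W → w1 ≤ A * C1 * W → Q ≤ 5 * R * T * w0 + 2 * S →
      S ≤ 7 * R * T * w1 + k3 * N + Cb * (w1 + Nb + Nt) +
        2 * T * (mu / L) * (H + T * R) * Na → False := by
  -- constants
  obtain ⟨t, ht0, htc⟩ : ∃ t : ℝ, 0 < t ∧ t ^ 2 * cT = 1 := by
    have h : 0 < Real.sqrt cT := Real.sqrt_pos.mpr hcT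
    refine ⟨1 / Real.sqrt cT, by positivity, ?_⟩
    rw [div_pow, one_pow, Real.sq_sqrt hcT.le]; field_simp
  obtain ⟨r, hr0, hRr⟩ : ∃ r : ℝ, 0 < r ∧ r ^ 2 = R :=
    ⟨Real.sqrt R, Real.sqrt_pos.mpr (by linarith), Real.sq_sqrt (by linarith)⟩
  obtain ⟨g, hg0, hgc⟩ : ∃ g : ℝ, 0 < g ∧ g ^ 2 = cQ :=
    ⟨Real.sqrt cQ, Real.sqrt_pos.mpr hcQ, Real.sq_sqrt hcQ.le⟩
  have hR0 : 0 < R := by linarith
  obtain ⟨i, hi0, hig⟩ : ∃ i : ℝ, 0 < i ∧ i * g = 1 := ⟨1 / g, by positivity, by field_simp⟩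
  obtain ⟨D, hD⟩ : ∃ D : ℝ, D = a1 * (3 * R) * (r + R * i + R * t) := ⟨_, rfl⟩
  have hD0 : 0 ≤ D := by rw [hD]; positivity
  refine ⟨g / (8 * (D + 1)), by positivity, ?_⟩
  obtain ⟨k3, hk3⟩ : ∃ k3 : ℝ, k3 = g / (8 * (D + 1)) := ⟨_, rfl⟩
  rw [← hk3]
  have hk30 : 0 < k3 := by rw [hk3]; positivity
  have hk3D : 8 * (k3 * D) ≤ g := by
    have h2 : k3 * (8 * (D + 1)) = g := by rw [hk3]; field_simp
    have h3 : k3 * (8 * (D + 1)) = 8 * (k3 * D) + 8 * k3 := by ring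
    linarith only [h2, h3, hk30]
  intro Cb hCb s hs C1 hC1
  have hs0 : 0 < s := by linarith
  obtain ⟨E2, hE2⟩ : ∃ E2 : ℝ, E2 = 10 * R * t * A + 28 * R * t * A * C1 +
    2 * Cb * (A * C1 * i + a1 * (3 * R) * (R * i + R * t) + 2 * s * r * D * i) := ⟨_, rfl⟩
  have hE20 : 0 ≤ E2 := by rw [hE2]; positivity
  obtain ⟨W0, hW0⟩ := exists_nat_gt ((2 * E2 * i) ^ 2 + 1 + 2 * s * r * i)
  refine ⟨W0, fun W hW => ?_⟩
  have hWW : (2 * E2 * i) ^ 2 + 1 + 2 * s * r * i < W :=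
    lt_of_lt_of_le hW0 (by exact_mod_cast hW)
  have hsri : 0 < 2 * s * r * i := by positivity
  have hW1 : (1 : ℝ) < W := by
    have := sq_nonneg (2 * E2 * i)
    linarith only [this, hWW, hsri]
  obtain ⟨w, hw, hwsqrt⟩ : ∃ w : ℝ, w = Real.sqrt W ∧ w ^ 2 = W :=
    ⟨_, rfl, Real.sq_sqrt (by linarith)⟩
  have hw1 : 1 < w := by
    rw [hw, Real.lt_sqrt (by norm_num)]
    simpa using hW1
  have hw0 : 0 < w := by linarith
  have hwE : 2 * E2 < g * w := by
    have h1 : 2 * E2 * i < w := by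
      rw [hw]
      apply Real.lt_sqrt_of_sq_lt
      linarith
    have h2 : 2 * E2 * i * g < w * g := mul_lt_mul_of_pos_right h1 hg0
    have h3 : 2 * E2 * i * g = 2 * E2 := by rw [mul_assoc, hig, mul_one]
    linarith only [h2, h3, mul_comm w g]
  have hwT : 2 * s * r ≤ g * w ^ 2 := by
    have h1 : 2 * s * r * i ≤ w ^ 2 := by
      rw [hwsqrt]
      have := sq_nonneg (2 * E2 * i)
      linarith only [this, hWW]
    have h2 : 2 * s * r * i * g ≤ w ^ 2 * g := mul_le_mul_of_nonneg_right h1 hg0.le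
    have h3 : 2 * s * r * i * g = 2 * s * r := by rw [mul_assoc, hig, mul_one]
    linarith only [h2, h3, mul_comm (w ^ 2) g]
  obtain ⟨E3, hE3⟩ : ∃ E3 : ℝ, E3 = 8 * mu * (r + 2 * R * t) *
    (a1 * (3 * R) * (cL * (r + i))) := ⟨_, rfl⟩
  have hE30 : 0 ≤ E3 := by rw [hE3]; positivity
  have hw4 : 0 < w ^ 4 := by positivity
  refine ⟨1 / (8 * (E3 + 1) * w ^ 4), by positivity, ?_⟩
  obtain ⟨eta, heta⟩ : ∃ eta : ℝ, eta = 1 / (8 * (E3 + 1) * w ^ 4) := ⟨_, rfl⟩
  rw [← heta]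
  have heta0 : 0 < eta := by rw [heta]; positivity
  have hetaE : eta * E3 * w ^ 4 ≤ 1 / 8 := by
    have h2 : eta * (8 * (E3 + 1) * w ^ 4) = 1 := by rw [heta]; field_simp
    have h3 : 0 ≤ eta * w ^ 4 := by positivity
    have h4 : eta * (8 * (E3 + 1) * w ^ 4) = 8 * (eta * E3 * w ^ 4) + 8 * (eta * w ^ 4) := by ring
    linarith only [h2, h3, h4]
  intro L T0 T Q X H N Nb Nt Na w0 w1 S K hL hT0 hT hTT hTL hH hX hXR hQ hTQ hQX hHQ hK hN0 hN
    hNb hNt hNt0 hNa hw0' hw1' hQS hS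
  have hQ0 : 0 < Q := lt_of_lt_of_le (by positivity) hQ
  obtain ⟨q, hq0, hq2⟩ : ∃ q : ℝ, 0 < q ∧ q ^ 2 = Q :=
    ⟨Real.sqrt Q, Real.sqrt_pos.mpr hQ0, Real.sq_sqrt hQ0.le⟩
  have sqle : ∀ {a b : ℝ}, a ^ 2 ≤ b ^ 2 → 0 ≤ b → a ≤ b := by
    intro a b h hb
    nlinarith only [h, hb, sq_nonneg (a - b)]
  -- `T0 ≤ t q`
  have hTq : T0 ≤ t * q := by
    apply sqle _ (by positivity)
    rw [mul_pow, hq2]
    have : T0 ^ 2 = t ^ 2 * (cT * T0 ^ 2) := by rw [← mul_assoc, htc, one_mul]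
    rw [this]
    exact mul_le_mul_of_nonneg_left hTQ (by positivity)
  have hT2q : T ≤ 2 * t * q := by linarith only [hTT, hTq]
  have hXw : X ≤ R * w ^ 2 := by rw [hwsqrt]; exact hXR
  have hHq : H ≤ r * w * q := by
    apply sqle _ (by positivity)
    rw [mul_pow, mul_pow, hRr, hq2]
    exact hHQ.trans (mul_le_mul_of_nonneg_right hXw hQ0.le)
  have hw2ge : 1 ≤ w ^ 2 := one_le_pow₀ hw1.le
  have hw3ge : 1 ≤ w ^ 3 := one_le_pow₀ hw1.le
  have hqlow : g * w ^ 3 ≤ q := by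
    apply sqle _ hq0.le
    rw [mul_pow, hgc, hq2]
    have : (w ^ 3) ^ 2 = (W : ℝ) ^ 3 := by rw [← hwsqrt]; ring
    rw [this]; exact hQ
  have hqi : 1 ≤ i * q := by
    have h1 : i * (g * w ^ 3) ≤ i * q := mul_le_mul_of_nonneg_left hqlow hi0.le
    have h2 : i * (g * w ^ 3) = w ^ 3 := by rw [← mul_assoc, hig, one_mul]
    linarith only [h1, h2, hw3ge]
  have hqT : q ≤ r * w * T0 := by
    apply sqle _ (by positivity)
    rw [mul_pow, mul_pow, hRr, hq2]
    exact hQX.trans (mul_le_mul_of_nonneg_right hXw (sq_nonneg _))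
  have hX3 : X + 2 * R ≤ 3 * R * w ^ 2 := by
    have h1 : R * 1 ≤ R * w ^ 2 := mul_le_mul_of_nonneg_left hw2ge (by linarith only [hR])
    linarith only [h1, hXw]
  have hqw : q ≤ w * q := le_mul_of_one_le_left hq0.le hw1.le
  have hX0 : 0 ≤ X + 2 * R := by positivity
  -- the number of tiles
  have hRi : R ≤ R * i * q := by
    have := mul_le_mul_of_nonneg_left hqi hR0.le
    linarith only [this, mul_assoc R i q]
  have hRt : R * T0 ≤ R * t * q := by
    have := mul_le_mul_of_nonneg_left hTq hR0.le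
    linarith only [this, mul_assoc R t q]
  have hiw : R * i * q ≤ R * i * (w * q) := mul_le_mul_of_nonneg_left hqw (by positivity)
  have htw : R * t * q ≤ R * t * (w * q) := mul_le_mul_of_nonneg_left hqw (by positivity)
  have hN' : N ≤ D * w ^ 3 * q := by
    refine hN.trans ?_
    have h1 : H + R + R * T0 ≤ (r + R * i + R * t) * (w * q) := by
      have e : (r + R * i + R * t) * (w * q) = r * w * q + R * i * (w * q) + R * t * (w * q) := by
        ring
      linarith only [e, hHq, hRi, hRt, hiw, htw]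
    have h2 : a1 * (X + 2 * R) * (H + R + R * T0) ≤
        a1 * (3 * R * w ^ 2) * ((r + R * i + R * t) * (w * q)) :=
      mul_le_mul (mul_le_mul_of_nonneg_left hX3 ha1) h1 (by positivity) (by positivity)
    refine h2.trans (le_of_eq ?_)
    rw [hD]; ring
  -- base tiles
  have hNb' : Nb ≤ a1 * (3 * R) * (R * i + R * t) * (w ^ 2 * q) := by
    refine hNb.trans ?_
    have h1 : R + R * T0 ≤ (R * i + R * t) * q := by
      have e : (R * i + R * t) * q = R * i * q + R * t * q := by ring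
      linarith only [e, hRi, hRt]
    have h2 : a1 * (X + 2 * R) * (R + R * T0) ≤
        a1 * (3 * R * w ^ 2) * ((R * i + R * t) * q) :=
      mul_le_mul (mul_le_mul_of_nonneg_left hX3 ha1) h1 (by positivity) (by positivity)
    refine h2.trans (le_of_eq ?_)
    ring
  -- the transition level
  have hT0s : 2 * s ≤ T0 := by
    have h1 : g * w ^ 3 ≤ r * w * T0 := hqlow.trans hqT
    have h2 : (2 * s) * (r * w) ≤ T0 * (r * w) := by
      have h3 : 2 * s * r * w ≤ g * w ^ 2 * w := mul_le_mul_of_nonneg_right hwT hw0.le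
      have e1 : g * w ^ 2 * w = g * w ^ 3 := by ring
      linarith only [h1, h3, e1, mul_comm T0 (r * w), mul_assoc (2 * s) r w]
    exact le_of_mul_le_mul_right h2 (by positivity)
  have hKT : T0 ≤ 2 * s * K := by
    have e : s * ((K : ℝ) + 1) = s * K + s := by ring
    linarith only [e, hK, hT0s]
  have hNt' : Nt ≤ 2 * s * r * D * i * (w ^ 2 * q) := by
    have h1 : Nt * T0 ≤ 2 * s * (D * w ^ 3 * q) := by
      calc Nt * T0 ≤ Nt * (2 * s * K) := mul_le_mul_of_nonneg_left hKT hNt0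
        _ = 2 * s * (Nt * K) := by ring
        _ ≤ 2 * s * N := mul_le_mul_of_nonneg_left hNt (by positivity)
        _ ≤ 2 * s * (D * w ^ 3 * q) := mul_le_mul_of_nonneg_left hN' (by positivity)
    have h2 : Nt * q ≤ (2 * s * r * D * w ^ 4) * q := by
      calc Nt * q ≤ Nt * (r * w * T0) := mul_le_mul_of_nonneg_left hqT hNt0
        _ = r * w * (Nt * T0) := by ring
        _ ≤ r * w * (2 * s * (D * w ^ 3 * q)) := mul_le_mul_of_nonneg_left h1 (by positivity)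
        _ = (2 * s * r * D * w ^ 4) * q := by ring
    have h3 : Nt ≤ 2 * s * r * D * w ^ 4 := le_of_mul_le_mul_right h2 hq0
    have h4 : w ^ 4 ≤ i * (w * q) := by
      have h5 : i * w * (g * w ^ 3) ≤ i * w * q := mul_le_mul_of_nonneg_left hqlow (by positivity)
      have h6 : i * w * (g * w ^ 3) = (i * g) * w ^ 4 := by ring
      rw [hig, one_mul] at h6
      linarith only [h5, h6, mul_assoc i w q]
    have h7 : w * q ≤ w ^ 2 * q := by
      have : w * (w * q) = w ^ 2 * q := by ring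
      rw [← this]
      exact le_mul_of_one_le_left (by positivity) hw1.le
    calc Nt ≤ 2 * s * r * D * w ^ 4 := h3
      _ ≤ 2 * s * r * D * (i * (w * q)) := mul_le_mul_of_nonneg_left h4 (by positivity)
      _ ≤ 2 * s * r * D * (i * (w ^ 2 * q)) :=
        mul_le_mul_of_nonneg_left (mul_le_mul_of_nonneg_left h7 hi0.le) (by positivity)
      _ = 2 * s * r * D * i * (w ^ 2 * q) := by ring
  -- the lower darts and the bad pairs
  have hw0b : 5 * R * T * w0 ≤ 10 * R * t * A * (w ^ 2 * q) := by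
    rw [← hwsqrt] at hw0'
    have h1 : 5 * R * T * w0 ≤ 5 * R * T * (A * w ^ 2) :=
      mul_le_mul_of_nonneg_left hw0' (by positivity)
    have h2 : 5 * R * T * (A * w ^ 2) ≤ 5 * R * (2 * t * q) * (A * w ^ 2) :=
      mul_le_mul_of_nonneg_right (mul_le_mul_of_nonneg_left hT2q (by positivity)) (by positivity)
    refine (h1.trans h2).trans (le_of_eq ?_)
    ring
  have hw1b : 7 * R * T * w1 ≤ 14 * R * t * A * C1 * (w ^ 2 * q) := by
    rw [← hwsqrt] at hw1'
    have h1 : 7 * R * T * w1 ≤ 7 * R * T * (A * C1 * w ^ 2) :=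
      mul_le_mul_of_nonneg_left hw1' (by positivity)
    have h2 : 7 * R * T * (A * C1 * w ^ 2) ≤ 7 * R * (2 * t * q) * (A * C1 * w ^ 2) :=
      mul_le_mul_of_nonneg_right (mul_le_mul_of_nonneg_left hT2q (by positivity)) (by positivity)
    refine (h1.trans h2).trans (le_of_eq ?_)
    ring
  have hw1c : w1 ≤ A * C1 * i * (w ^ 2 * q) := by
    rw [← hwsqrt] at hw1'
    have h1 : A * C1 * w ^ 2 * 1 ≤ A * C1 * w ^ 2 * (i * q) :=
      mul_le_mul_of_nonneg_left hqi (by positivity)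
    have e : A * C1 * w ^ 2 * (i * q) = A * C1 * i * (w ^ 2 * q) := by ring
    linarith only [h1, e, hw1']
  have hsum : Cb * (w1 + Nb + Nt) ≤ Cb * ((A * C1 * i + a1 * (3 * R) * (R * i + R * t) +
      2 * s * r * D * i) * (w ^ 2 * q)) := by
    apply mul_le_mul_of_nonneg_left _ hCb
    have e : (A * C1 * i + a1 * (3 * R) * (R * i + R * t) + 2 * s * r * D * i) * (w ^ 2 * q) =
      A * C1 * i * (w ^ 2 * q) + a1 * (3 * R) * (R * i + R * t) * (w ^ 2 * q) +
      2 * s * r * D * i * (w ^ 2 * q) := by ring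
    linarith only [e, hw1c, hNb', hNt']
  have hk3N : k3 * N ≤ k3 * (D * w ^ 3 * q) := mul_le_mul_of_nonneg_left hN' hk30.le
  -- the last term
  have hlast : 2 * T * (mu / L) * (H + T * R) * Na ≤ (eta * E3 * w ^ 4) * q ^ 2 := by
    have hTL' : T / L ≤ 4 * eta := by
      rw [div_le_iff₀ hL]
      linarith only [hTT, hTL]
    have h1 : 2 * T * (mu / L) ≤ 2 * mu * (4 * eta) := by
      have e : 2 * T * (mu / L) = 2 * mu * (T / L) := by ring
      rw [e]
      exact mul_le_mul_of_nonneg_left hTL' (by positivity)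
    have h2 : H + T * R ≤ (r + 2 * R * t) * (w * q) := by
      have h3 : T * R ≤ 2 * t * q * R := mul_le_mul_of_nonneg_right hT2q hR0.le
      have h4 : 2 * t * q * R ≤ 2 * R * t * (w * q) := by
        have : 2 * R * t * q ≤ 2 * R * t * (w * q) :=
          mul_le_mul_of_nonneg_left hqw (by positivity)
        linarith only [this, show 2 * t * q * R = 2 * R * t * q by ring]
      have e : (r + 2 * R * t) * (w * q) = r * w * q + 2 * R * t * (w * q) := by ring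
      linarith only [h3, h4, e, hHq]
    have h5 : Na ≤ a1 * (3 * R * w ^ 2) * (cL * ((r + i) * (w * q))) := by
      refine hNa.trans ?_
      have h6 : H + 1 ≤ (r + i) * (w * q) := by
        have h7 : i * q ≤ i * (w * q) := mul_le_mul_of_nonneg_left hqw hi0.le
        have e : (r + i) * (w * q) = r * w * q + i * (w * q) := by ring
        linarith only [e, h7, hHq, hqi]
      exact mul_le_mul (mul_le_mul_of_nonneg_left hX3 ha1)
        (mul_le_mul_of_nonneg_left h6 hcL) (by positivity) (by positivity)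
    have h8 : 0 ≤ 2 * T * (mu / L) := by positivity
    have h9 : 0 ≤ H + T * R := by positivity
    calc 2 * T * (mu / L) * (H + T * R) * Na
        ≤ 2 * T * (mu / L) * (H + T * R) *
          (a1 * (3 * R * w ^ 2) * (cL * ((r + i) * (w * q)))) :=
          mul_le_mul_of_nonneg_left h5 (mul_nonneg h8 h9)
      _ ≤ 2 * mu * (4 * eta) * ((r + 2 * R * t) * (w * q)) *
          (a1 * (3 * R * w ^ 2) * (cL * ((r + i) * (w * q)))) := by
          apply mul_le_mul_of_nonneg_right _ (by positivity)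
          exact mul_le_mul h1 h2 h9 (by positivity)
      _ = (eta * E3 * w ^ 4) * q ^ 2 := by rw [hE3]; ring
  have hlast2 : (eta * E3 * w ^ 4) * q ^ 2 ≤ 1 / 8 * q ^ 2 :=
    mul_le_mul_of_nonneg_right hetaE (by positivity)
  -- conclusion
  have hfin : q ^ 2 ≤ E2 * (w ^ 2 * q) + 2 * (k3 * D) * (w ^ 3 * q) + q ^ 2 / 4 := by
    have e : E2 * (w ^ 2 * q) = 10 * R * t * A * (w ^ 2 * q) +
      2 * (14 * R * t * A * C1 * (w ^ 2 * q)) +
      2 * (Cb * ((A * C1 * i + a1 * (3 * R) * (R * i + R * t) + 2 * s * r * D * i) *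
        (w ^ 2 * q))) := by rw [hE2]; ring
    have e2 : 2 * (k3 * D) * (w ^ 3 * q) = 2 * (k3 * (D * w ^ 3 * q)) := by ring
    rw [← hq2] at hQS
    linarith only [hQS, hS, hw0b, hw1b, hsum, hk3N, hlast, hlast2, e, e2]
  have hkq : 2 * (k3 * D) * (w ^ 3 * q) ≤ g / 4 * (w ^ 3 * q) := by
    apply mul_le_mul_of_nonneg_right _ (by positivity)
    linarith only [hk3D]
  have hq3 : 3 / 4 * q ≤ E2 * w ^ 2 + g / 4 * w ^ 3 := by
    have h1 : (3 / 4 * q) * q ≤ (E2 * w ^ 2 + g / 4 * w ^ 3) * q := by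
      have e1 : (3 / 4 * q) * q = 3 / 4 * q ^ 2 := by ring
      have e2 : (E2 * w ^ 2 + g / 4 * w ^ 3) * q = E2 * (w ^ 2 * q) + g / 4 * (w ^ 3 * q) := by
        ring
      linarith only [e1, e2, hfin, hkq]
    exact le_of_mul_le_mul_right h1 hq0
  have h6 : 2 * E2 * w ^ 2 < g * w * w ^ 2 := mul_lt_mul_of_pos_right hwE (by positivity)
  have h7 : g * w * w ^ 2 = g * w ^ 3 := by ring
  linarith only [h6, h7, hq3, hqlow]

end C2305bG
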