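import Pool.Agent.W_c2305b_h77.FatDefs2

/-!
# MP_c2305b_co, FAT (J3): the chord between two cells, two cells have at most two common points on
the boundary
-/

open MeasureTheory Set Module Topology

namespace C2305bFat

open W82
open C2305b.TL (cr)

variable {ι : Type*} {D : Set V} {P : ι → Set V}

/-- A convex combination of two balls of radius `r`. -/
theorem ball_comb {a b z : V} {r s t : ℝ} (hs : 0 ≤ s) (ht : 0 ≤ t) (hst : s + t = 1)
    (hD : Convex ℝ D) (ha : Metric.closedBall a r ⊆ D) (hb : Metric.closedBall b r ⊆ D)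
    (hz : z ∈ Metric.closedBall (s • a + t • b) r) : z ∈ D := by
  have h1 : a + (z - (s • a + t • b)) ∈ D := by
    apply ha
    rw [Metric.mem_closedBall, dist_eq_norm] at hz ⊢
    simpa using hz
  have h2 : b + (z - (s • a + t • b)) ∈ D := by
    apply hb
    rw [Metric.mem_closedBall, dist_eq_norm] at hz ⊢
    simpa using hz
  have h3 := hD h1 h2 hs ht hst
  have h4 : s • (a + (z - (s • a + t • b))) + t • (b + (z - (s • a + t • b))) = z := by
    have h5 : s • (a + (z - (s • a + t • b))) + t • (b + (z - (s • a + t • b)))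
        = (s • a + t • b) + (s + t) • (z - (s • a + t • b)) := by module
    rw [h5, hst]
    module
  rwa [h4] at h3

/-- (J3) the chord between two cells which contain discs of radius `r`. -/
theorem chord (h : Tiling D P) {i j : ι} (hij : i ≠ j) {p q a b : V} {r : ℝ} (hr : 0 ≤ r)
    (hpi : p ∈ P i) (hpj : p ∈ P j) (hqi : q ∈ P i) (hqj : q ∈ P j) (hpD : p ∈ frontier D)
    (hqD : q ∈ frontier D) (hpq : p ≠ q) (ha : Metric.closedBall a r ⊆ P i)
    (hb : Metric.closedBall b r ⊆ P j) : 2 * r ≤ ‖p - q‖ := by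
  rcases hr.eq_or_lt with hr0 | hr0
  · rw [← hr0, mul_zero]
    exact norm_nonneg _
  obtain ⟨f, c, hf, h1, h2⟩ := h.sep hij
  have hfp : f p = c := le_antisymm (h1 p hpi) (h2 p hpj)
  have hfq : f q = c := le_antisymm (h1 q hqi) (h2 q hqj)
  have haP : a ∈ P i := ha (Metric.mem_closedBall_self hr)
  have hbP : b ∈ P j := hb (Metric.mem_closedBall_self hr)
  have hfa : f a ≤ c := h1 a haP
  have hfb : c ≤ f b := h2 b hbP
  obtain ⟨x, hx, hfx⟩ := exists_on_segment f hfa hfb
  obtain ⟨s, t, hs, ht, hst, rfl⟩ := hx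
  set x : V := s • a + t • b with hxdef
  have hball : Metric.closedBall x r ⊆ D := fun z hz =>
    ball_comb hs ht hst h.convD (ha.trans (h.sub i)) (hb.trans (h.sub j)) hz
  have hxint : x ∈ interior D := by
    rw [mem_interior]
    exact ⟨Metric.ball x r, Metric.ball_subset_closedBall.trans hball, Metric.isOpen_ball,
      Metric.mem_ball_self hr0⟩
  have hfar : ∀ y ∈ frontier D, r ≤ ‖y - x‖ := by
    intro y hy
    by_contra hcon
    push Not at hcon
    apply hy.2
    rw [mem_interior]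
    refine ⟨Metric.ball x r, Metric.ball_subset_closedBall.trans hball, Metric.isOpen_ball, ?_⟩
    rw [Metric.mem_ball, dist_eq_norm]
    exact hcon
  have hqp : q - p ≠ 0 := sub_ne_zero.mpr hpq.symm
  obtain ⟨m, hm⟩ := exists_smul_of_ker f hf hqp (by simp [hfp, hfq]) (p := x - p)
    (by rw [map_sub, hfx, hfp, sub_self])
  have hxm : x = p + m • (q - p) := by
    rw [← hm]
    abel
  have hpD' : p ∈ D := h.sub i hpi
  have hqD' : q ∈ D := h.sub i hqi
  -- `0 < m`
  have hm0 : 0 < m := by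
    by_contra hcon
    push Not at hcon
    -- `p` is in the segment from `x` to `q`
    apply hpD.2
    have h3 : (1 - m)⁻¹ • x + (1 - (1 - m)⁻¹) • q ∈ interior D := by
      apply h.convD.combo_interior_self_mem_interior hxint hqD' (inv_pos.mpr (by linarith))
      · rw [sub_nonneg]
        exact inv_le_one_of_one_le₀ (by linarith)
      · ring
    have h4 : (1 - m)⁻¹ • x + (1 - (1 - m)⁻¹) • q = p := by
      have h5 : (1 - m) ≠ 0 := by linarith
      rw [hxm]
      have h6 : (1 - m)⁻¹ • (p + m • (q - p)) + (1 - (1 - m)⁻¹) • q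
          = ((1 - m)⁻¹ * (1 - m)) • p + (1 - (1 - m)⁻¹ * (1 - m)) • q := by module
      rw [h6, inv_mul_cancel₀ h5]
      module
    rwa [h4] at h3
  have hm1 : m < 1 := by
    by_contra hcon
    push Not at hcon
    apply hqD.2
    have h3 : m⁻¹ • x + (1 - m⁻¹) • p ∈ interior D := by
      apply h.convD.combo_interior_self_mem_interior hxint hpD' (inv_pos.mpr hm0)
      · rw [sub_nonneg]
        exact inv_le_one_of_one_le₀ hcon
      · ring
    have h4 : m⁻¹ • x + (1 - m⁻¹) • p = q := by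
      have h5 : m ≠ 0 := hm0.ne'
      rw [hxm]
      have h6 : m⁻¹ • (p + m • (q - p)) + (1 - m⁻¹) • p
          = (m⁻¹ * m) • q + (1 - m⁻¹ * m) • p := by module
      rw [h6, inv_mul_cancel₀ h5]
      module
    rwa [h4] at h3
  have e1 : ‖p - x‖ = m * ‖p - q‖ := by
    have : p - x = m • (p - q) := by rw [hxm]; module
    rw [this, norm_smul, Real.norm_of_nonneg hm0.le]
  have e2 : ‖q - x‖ = (1 - m) * ‖p - q‖ := by
    have : q - x = -((1 - m) • (p - q)) := by rw [hxm]; module
    rw [this, norm_neg, norm_smul, Real.norm_of_nonneg (by linarith)]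
  have e3 := hfar p hpD
  have e4 := hfar q hqD
  rw [e1] at e3
  rw [e2] at e4
  linarith

/-- Three different points on a line: one of them is between the others. -/
theorem between_of_line (f : V →L[ℝ] ℝ) (hf : f ≠ 0) {c : ℝ} {x y z : V} (hx : f x = c)
    (hy : f y = c) (hz : f z = c) (hxy : x ≠ y) (hzx : z ≠ x) (hzy : z ≠ y) :
    x ∈ openSegment ℝ z y ∨ z ∈ openSegment ℝ x y ∨ y ∈ openSegment ℝ x z := by
  have hyx : y - x ≠ 0 := sub_ne_zero.mpr hxy.symm
  obtain ⟨t, ht⟩ := exists_smul_of_ker f hf hyx (by simp [hx, hy]) (p := z - x)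
    (by rw [map_sub, hx, hz, sub_self])
  have hzt : z = x + t • (y - x) := by
    rw [← ht]
    abel
  have ht0 : t ≠ 0 := by
    rintro rfl
    apply hzx
    rw [hzt]
    module
  have ht1 : t ≠ 1 := by
    rintro rfl
    apply hzy
    rw [hzt]
    module
  rcases lt_or_gt_of_ne ht0 with h0 | h0
  · left
    have h5 : (1 - t) ≠ 0 := by linarith
    refine ⟨(1 - t)⁻¹, 1 - (1 - t)⁻¹, inv_pos.mpr (by linarith), ?_, by ring, ?_⟩
    · rw [sub_pos]
      exact inv_lt_one_of_one_lt₀ (by linarith)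
    · rw [hzt]
      have h6 : (1 - t)⁻¹ • (x + t • (y - x)) + (1 - (1 - t)⁻¹) • y
          = ((1 - t)⁻¹ * (1 - t)) • x + (1 - (1 - t)⁻¹ * (1 - t)) • y := by module
      rw [h6, inv_mul_cancel₀ h5]
      module
  · rcases lt_or_gt_of_ne ht1 with h1 | h1
    · right; left
      refine ⟨1 - t, t, by linarith, h0, by ring, ?_⟩
      rw [hzt]
      module
    · right; right
      refine ⟨1 - t⁻¹, t⁻¹, ?_, inv_pos.mpr h0, by ring, ?_⟩
      · rw [sub_pos]
        exact inv_lt_one_of_one_lt₀ h1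
      · rw [hzt]
        have h6 : (1 - t⁻¹) • x + t⁻¹ • (x + t • (y - x))
            = (t⁻¹ * t) • y + (1 - t⁻¹ * t) • x := by module
        rw [h6, inv_mul_cancel₀ h0.ne']
        module

/-- Three different common boundary points of two cells do not exist. -/
theorem no_three (h : Tiling D P) {i j : ι} (hij : i ≠ j) {x y z : V}
    (hx : x ∈ P i ∩ P j ∩ frontier D) (hy : y ∈ P i ∩ P j ∩ frontier D)
    (hz : z ∈ P i ∩ P j ∩ frontier D) (hxy : x ≠ y) (hzx : z ≠ x) (hzy : z ≠ y) : False := by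
  obtain ⟨f, c, hf, h1, h2⟩ := h.sep hij
  have hfl : ∀ w ∈ P i ∩ P j ∩ frontier D, f w = c := fun w hw =>
    le_antisymm (h1 w hw.1.1) (h2 w hw.1.2)
  have hex : ∀ w ∈ P i ∩ P j ∩ frontier D, w ∈ (P i).extremePoints ℝ := fun w hw =>
    h.claimC hw.2 hij hw.1.1 hw.1.2
  rcases between_of_line f hf (hfl x hx) (hfl y hy) (hfl z hz) hxy hzx hzy with h3 | h3 | h3
  · exact hzx ((mem_extremePoints.mp (hex x hx)).2 z hz.1.1 y hy.1.1 h3).1
  · exact hzx ((mem_extremePoints.mp (hex z hz)).2 x hx.1.1 y hy.1.1 h3).1.symm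
  · exact hxy ((mem_extremePoints.mp (hex y hy)).2 x hx.1.1 z hz.1.1 h3).1

theorem two_common (h : Tiling D P) {i j : ι} (hij : i ≠ j) :
    (P i ∩ P j ∩ frontier D).Finite ∧ (P i ∩ P j ∩ frontier D).ncard ≤ 2 := by
  rcases (P i ∩ P j ∩ frontier D).subsingleton_or_nontrivial with hs | ⟨x, hx, y, hy, hxy⟩
  · refine ⟨hs.finite, ?_⟩
    have := (Set.ncard_le_one hs.finite).mpr fun a ha b hb => hs ha hb
    omega
  · have hsub : P i ∩ P j ∩ frontier D ⊆ {x, y} := by
      intro z hz
      by_contra hcon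
      simp only [mem_insert_iff, mem_singleton_iff, not_or] at hcon
      exact no_three h hij hx hy hz hxy hcon.1 hcon.2
    have hfin : ({x, y} : Set V).Finite := Set.toFinite _
    refine ⟨hfin.subset hsub, ?_⟩
    exact (Set.ncard_le_ncard hsub hfin).trans (Set.ncard_pair hxy).le

end C2305bFat
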