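import Pool.Agent.W_c2305b_h35.ExistsWin

/-!
# Tiles strictly below the base of a window

A tile of the tiling `T` which lies strictly below the base and in the interior of the tiled
region keeps its vertices, its edges and its common edges in the window.
-/

namespace C2305b.TL

open Set Module MeasureTheory

/-- A point of a tile strictly below the base gives a tile of the window. -/
lemma Tiling.low_index {ι : Type*} (T : Tiling ι) {k : ι} {z : V} (hz : z ∈ T.P k)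
    (h : z 1 < 0) : (interior (T.P k ∩ {z | z 1 ≤ 0})).Nonempty := by
  have hopen : IsOpen {z : V | z 1 < 0} :=
    isOpen_lt (EuclideanSpace.proj 1 : V →L[ℝ] ℝ).continuous continuous_const
  have hcl : z ∈ closure (interior (T.P k)) := by rw [T.cl k]; exact hz
  obtain ⟨y, hy1, hy2⟩ := mem_closure_iff.mp hcl _ hopen h
  refine ⟨y, ?_⟩
  rw [mem_interior]
  refine ⟨interior (T.P k) ∩ {z : V | z 1 < 0}, ?_, isOpen_interior.inter hopen, hy2, hy1⟩
  rintro x ⟨hx1, hx2⟩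
  exact ⟨interior_subset hx1, le_of_lt (show x 1 < 0 from hx2)⟩

/-- The extreme points of a clipped set strictly below the base are extreme in the whole set. -/
lemma extreme_of_clip {C : Set V} (hC : Convex ℝ C) {w : V} (hw : w 1 < 0)
    (h : w ∈ (C ∩ {z : V | z 1 ≤ 0}).extremePoints ℝ) : w ∈ C.extremePoints ℝ := by
  refine ⟨h.1.1, ?_⟩
  intro a ha b hb hab
  obtain ⟨s, t, hs, ht, hst, hw'⟩ := hab
  -- shrink the segment towards `w`
  obtain ⟨δ, hδ0, hδ1, hδa, hδb⟩ : ∃ δ : ℝ, 0 < δ ∧ δ ≤ 1 ∧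
      w 1 + δ * (a 1 - w 1) ≤ 0 ∧ w 1 + δ * (b 1 - w 1) ≤ 0 := by
    obtain ⟨M, hM0, hMa, hMb⟩ : ∃ M : ℝ, 0 < M ∧ a 1 - w 1 ≤ M ∧ b 1 - w 1 ≤ M :=
      ⟨|a 1 - w 1| + |b 1 - w 1| + 1, by positivity,
        by linarith [le_abs_self (a 1 - w 1), abs_nonneg (b 1 - w 1)],
        by linarith [le_abs_self (b 1 - w 1), abs_nonneg (a 1 - w 1)]⟩
    have hneg : 0 < -(w 1) := by linarith
    refine ⟨min 1 (-(w 1) / M), lt_min one_pos (div_pos hneg hM0), min_le_left _ _, ?_, ?_⟩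
    · have h1 : min 1 (-(w 1) / M) * (a 1 - w 1) ≤ min 1 (-(w 1) / M) * M :=
        mul_le_mul_of_nonneg_left hMa (le_min zero_le_one (div_pos hneg hM0).le)
      have h2 : min 1 (-(w 1) / M) * M ≤ -(w 1) / M * M :=
        mul_le_mul_of_nonneg_right (min_le_right _ _) hM0.le
      rw [div_mul_cancel₀ _ hM0.ne'] at h2
      linarith
    · have h1 : min 1 (-(w 1) / M) * (b 1 - w 1) ≤ min 1 (-(w 1) / M) * M :=
        mul_le_mul_of_nonneg_left hMb (le_min zero_le_one (div_pos hneg hM0).le)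
      have h2 : min 1 (-(w 1) / M) * M ≤ -(w 1) / M * M :=
        mul_le_mul_of_nonneg_right (min_le_right _ _) hM0.le
      rw [div_mul_cancel₀ _ hM0.ne'] at h2
      linarith
  have hmem : ∀ c ∈ C, w 1 + δ * (c 1 - w 1) ≤ 0 →
      w + δ • (c - w) ∈ C ∩ {z : V | z 1 ≤ 0} := by
    intro c hc hle
    refine ⟨?_, ?_⟩
    · have : w + δ • (c - w) = (1 - δ) • w + δ • c := by module
      rw [this]
      exact hC h.1.1 hc (by linarith) hδ0.le (by ring)
    · simp only [mem_setOf_eq, PiLp.add_apply, PiLp.smul_apply, PiLp.sub_apply, smul_eq_mul]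
      exact hle
  have key := h.2 (hmem a ha hδa) (hmem b hb hδb) (show w ∈ openSegment ℝ _ _ from
    ⟨s, t, hs, ht, hst, by
      have e1 : s • (w + δ • (a - w)) + t • (w + δ • (b - w)) =
          (s + t) • w + δ • ((s • a + t • b) - (s + t) • w) := by module
      rw [e1, hst, hw']
      module⟩)
  have h1 : δ • (a - w) = 0 := by
    have : w + δ • (a - w) - w = 0 := by rw [key, sub_self]
    rwa [add_sub_cancel_left] at this
  rcases smul_eq_zero.mp h1 with h2 | h2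
  · exact absurd h2 hδ0.ne'
  · exact sub_eq_zero.mp h2

/-- The extreme points of a tile are vertices of the tiling. -/
lemma Tiling.extreme_mem_W {ι : Type*} (T : Tiling ι) {k : ι} {w : V}
    (h : w ∈ (T.P k).extremePoints ℝ) : w ∈ T.W := by
  rw [T.hull k] at h
  exact (extremePoints_convexHull_subset h).1

section

variable {J0 K : Type*} {T : Tiling J0} {e : K → J0} {Z : Win K}

/-- A vertex of the window strictly below the base and inside the region is a corner of a tile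
of the window in the old tiling. -/
lemma win_vertex (hP : ∀ i, Z.T.P i = T.P (e i) ∩ {z | z 1 ≤ 0})
    (hR : Z.T.R = T.R ∩ {z | z 1 ≤ 0}) (hS : Z.T.Sharp) {w : V} (hw : w ∈ Z.T.W)
    (hlow : w 1 < 0) (hint : w ∈ interior T.R) : ∃ k, w ∈ (T.P (e k)).extremePoints ℝ := by
  rcases hS w hw with h | ⟨k, hk⟩
  · exfalso
    apply h
    rw [hR, interior_inter]
    refine ⟨hint, ?_⟩
    rw [mem_interior]
    refine ⟨{z : V | z 1 < 0}, fun x hx => le_of_lt (show x 1 < 0 from hx),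
      isOpen_lt (EuclideanSpace.proj 1 : V →L[ℝ] ℝ).continuous continuous_const, hlow⟩
  · refine ⟨k, ?_⟩
    rw [hP k] at hk
    exact extreme_of_clip (T.conv (e k)) hlow hk

/-- A corner of a tile of the window below the base is a vertex of the window. -/
lemma mem_win_W (hP : ∀ i, Z.T.P i = T.P (e i) ∩ {z | z 1 ≤ 0}) {k : K} {w : V}
    (hlow : w 1 ≤ 0) (h : w ∈ (T.P (e k)).extremePoints ℝ) : w ∈ Z.T.W := by
  apply Z.T.extreme_mem_W (k := k)
  rw [hP k]
  exact ⟨⟨h.1, hlow⟩, fun a ha b hb hab => h.2 ha.1 hb.1 hab⟩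

/-- The vertices of a tile strictly below the base. -/
lemma win_mem_iff (hP : ∀ i, Z.T.P i = T.P (e i) ∩ {z | z 1 ≤ 0})
    (hR : Z.T.R = T.R ∩ {z | z 1 ≤ 0}) (hS : Z.T.Sharp) {i : K}
    (hlow : ∀ z ∈ T.P (e i), z 1 < 0) (hint : T.P (e i) ⊆ interior T.R)
    (hex : ∀ w ∈ T.W, w ∈ T.P (e i) → ∃ k, w ∈ (T.P (e k)).extremePoints ℝ) {w : V}
    (hw : w ∈ T.P (e i)) : w ∈ Z.T.W ↔ w ∈ T.W := by
  constructor
  · intro h
    obtain ⟨k, hk⟩ := win_vertex hP hR hS h (hlow w hw) (hint hw)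
    exact T.extreme_mem_W hk
  · intro h
    obtain ⟨k, hk⟩ := hex w h hw
    exact mem_win_W hP (hlow w hw).le hk

lemma win_P_eq (hP : ∀ i, Z.T.P i = T.P (e i) ∩ {z | z 1 ≤ 0}) {i : K}
    (hlow : ∀ z ∈ T.P (e i), z 1 < 0) : Z.T.P i = T.P (e i) := by
  rw [hP i]
  exact inter_eq_left.mpr fun z hz => (hlow z hz).le

/-- **The edges of a tile strictly below the base.** -/
theorem win_E_iff (hP : ∀ i, Z.T.P i = T.P (e i) ∩ {z | z 1 ≤ 0})
    (hR : Z.T.R = T.R ∩ {z | z 1 ≤ 0}) (hS : Z.T.Sharp) {i : K}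
    (hlow : ∀ z ∈ T.P (e i), z 1 < 0) (hint : T.P (e i) ⊆ interior T.R)
    (hex : ∀ w ∈ T.W, w ∈ T.P (e i) → ∃ k, w ∈ (T.P (e k)).extremePoints ℝ) {v w : V} :
    Z.T.E i v w ↔ T.E (e i) v w := by
  have hm := fun {w : V} (hw : w ∈ T.P (e i)) => win_mem_iff hP hR hS hlow hint hex hw
  have hPe := win_P_eq hP hlow
  unfold Tiling.E
  rw [hPe]
  constructor
  · rintro ⟨h1, h2, h3, h4, h5⟩
    refine ⟨⟨(hm h1.2).mp h1.1, h1.2⟩, ⟨(hm h2.2).mp h2.1, h2.2⟩, h3, h4, ?_⟩
    intro y hy hyo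
    have hyP : y ∈ T.P (e i) :=
      (T.conv (e i)).segment_subset h1.2 h2.2 (openSegment_subset_segment ℝ _ _ hyo)
    exact h5 y ((hm hyP).mpr hy) hyo
  · rintro ⟨h1, h2, h3, h4, h5⟩
    refine ⟨⟨(hm h1.2).mpr h1.1, h1.2⟩, ⟨(hm h2.2).mpr h2.1, h2.2⟩, h3, h4, ?_⟩
    intro y hy hyo
    have hyP : y ∈ T.P (e i) :=
      (T.conv (e i)).segment_subset h1.2 h2.2 (openSegment_subset_segment ℝ _ _ hyo)
    exact h5 y ((hm hyP).mp hy) hyo

/-- **Tile strictly below the base**: same set, same vertices, same edges, same common edges, and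
no boundary edge in the window. -/
theorem full_tile (hP : ∀ i, Z.T.P i = T.P (e i) ∩ {z | z 1 ≤ 0})
    (hR : Z.T.R = T.R ∩ {z | z 1 ≤ 0}) (hS : Z.T.Sharp) {i : K}
    (hlow : ∀ z ∈ T.P (e i), z 1 < 0) (hint : T.P (e i) ⊆ interior T.R)
    (hex : ∀ w ∈ T.W, w ∈ T.P (e i) → ∃ k, w ∈ (T.P (e k)).extremePoints ℝ) :
    Z.T.P i = T.P (e i) ∧ Z.T.verts i = T.verts (e i) ∧ Z.T.edges i = T.edges (e i) ∧
      Z.T.bdEdges i = ∅ ∧ (∀ j, Z.T.common i j = T.common (e i) (e j)) ∧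
      ∀ j d, d ∈ Z.T.common j i ↔ d ∈ T.common (e j) (e i) := by
  classical
  have hm := fun {w : V} (hw : w ∈ T.P (e i)) => win_mem_iff hP hR hS hlow hint hex hw
  have hPe := win_P_eq hP hlow
  have hE := fun {v w : V} => win_E_iff (v := v) (w := w) hP hR hS hlow hint hex
  -- the other side of an edge
  have hother : ∀ j, ∀ v w : V, T.E (e i) v w → (Z.T.E j w v ↔ T.E (e j) w v) := by
    intro j v w h
    have hZ := hE.mpr h
    have v1 := hlow v h.1.2
    have w1 := hlow w h.2.1.2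
    constructor
    · intro h'
      have hvj := h'.2.1.2
      have hwj := h'.1.2
      rw [hP j] at hvj hwj
      refine ⟨⟨h.2.1.1, hwj.1⟩, ⟨h.1.1, hvj.1⟩, h'.2.2.1, ?_, ?_⟩
      · intro x hx
        by_contra hcon
        push Not at hcon
        obtain ⟨δ, hδ0, hδ1, hδx⟩ : ∃ δ : ℝ, 0 < δ ∧ δ ≤ 1 ∧ w 1 + δ * (x 1 - w 1) ≤ 0 := by
          have hM0 : 0 < |x 1 - w 1| + 1 := by positivity
          have hneg : 0 < -(w 1) := by linarith
          refine ⟨min 1 (-(w 1) / (|x 1 - w 1| + 1)), lt_min one_pos (div_pos hneg hM0),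
            min_le_left _ _, ?_⟩
          have h1 : min 1 (-(w 1) / (|x 1 - w 1| + 1)) * (x 1 - w 1) ≤
              min 1 (-(w 1) / (|x 1 - w 1| + 1)) * (|x 1 - w 1| + 1) :=
            mul_le_mul_of_nonneg_left (by linarith [le_abs_self (x 1 - w 1)])
              (le_min zero_le_one (div_pos hneg hM0).le)
          have h2 : min 1 (-(w 1) / (|x 1 - w 1| + 1)) * (|x 1 - w 1| + 1) ≤
              -(w 1) / (|x 1 - w 1| + 1) * (|x 1 - w 1| + 1) :=
            mul_le_mul_of_nonneg_right (min_le_right _ _) hM0.le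
          rw [div_mul_cancel₀ _ hM0.ne'] at h2
          linarith
        have hmem : w + δ • (x - w) ∈ Z.T.P j := by
          rw [hP j]
          refine ⟨?_, ?_⟩
          · have : w + δ • (x - w) = (1 - δ) • w + δ • x := by module
            rw [this]
            exact T.conv (e j) hwj.1 hx (by linarith) hδ0.le (by ring)
          · simp only [mem_setOf_eq, PiLp.add_apply, PiLp.smul_apply, PiLp.sub_apply,
              smul_eq_mul]
            exact hδx
        have h3 := h'.2.2.2.1 _ hmem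
        rw [add_sub_cancel_left, cr_smul_right] at h3
        have h4 := mul_neg_of_pos_of_neg hδ0 hcon
        linarith
      · intro y hy hyo
        rw [openSegment_symm] at hyo
        exact h.2.2.2.2 y hy hyo
    · intro h'
      refine ⟨⟨hZ.2.1.1, ?_⟩, ⟨hZ.1.1, ?_⟩, h'.2.2.1, ?_, ?_⟩
      · rw [hP j]; exact ⟨h'.1.2, w1.le⟩
      · rw [hP j]; exact ⟨h'.2.1.2, v1.le⟩
      · intro x hx
        rw [hP j] at hx
        exact h'.2.2.2.1 x hx.1
      · intro y hy hyo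
        rw [openSegment_symm] at hyo
        exact hZ.2.2.2.2 y hy hyo
  refine ⟨hPe, ?_, ?_, ?_, ?_, ?_⟩
  · ext w
    rw [Z.T.mem_verts, T.mem_verts, hPe]
    constructor
    · rintro ⟨h1, h2⟩; exact ⟨(hm h2).mp h1, h2⟩
    · rintro ⟨h1, h2⟩; exact ⟨(hm h2).mpr h1, h2⟩
  · ext p
    rw [Z.T.mem_edges, T.mem_edges]
    exact hE
  · rw [Finset.eq_empty_iff_forall_notMem]
    intro p hp
    unfold Tiling.bdEdges at hp
    rw [Finset.mem_filter, Z.T.mem_edges] at hp
    obtain ⟨h1, h2⟩ := hp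
    have hv : p.1 ∈ interior Z.T.R := by
      rw [hR, interior_inter]
      have h1' := hE.mp h1
      refine ⟨hint h1'.1.2, ?_⟩
      rw [mem_interior]
      exact ⟨{z : V | z 1 < 0}, fun x hx => le_of_lt (show x 1 < 0 from hx),
        isOpen_lt (EuclideanSpace.proj 1 : V →L[ℝ] ℝ).continuous continuous_const,
        hlow _ h1'.1.2⟩
    have h3 := cr_pos_of_mem_interior (sub_ne_zero.mpr h1.2.2.1) h2 hv
    rw [sub_self, cr_zero_right] at h3
    exact lt_irrefl _ h3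
  · intro j
    ext d
    rw [Z.T.mem_common, T.mem_common]
    unfold Tiling.Tw
    constructor
    · rintro ⟨h1, h2⟩
      exact ⟨hE.mp h1, (hother j _ _ (hE.mp h1)).mp h2⟩
    · rintro ⟨h1, h2⟩
      exact ⟨hE.mpr h1, (hother j _ _ h1).mpr h2⟩
  · intro j d
    rw [Z.T.mem_common, T.mem_common]
    unfold Tiling.Tw
    constructor
    · rintro ⟨h1, h2⟩
      exact ⟨(hother j _ _ (hE.mp h2)).mp h1, hE.mp h2⟩
    · rintro ⟨h1, h2⟩
      exact ⟨(hother j _ _ h2).mpr h1, hE.mpr h2⟩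

end

/-- **Tile strictly below the base, in the window of `exists_win`.** -/
theorem Tiling.full_tile_win {ι : Type*} {T : Tiling ι} (hT : T.Sharp)
    {Z : Win {i : ι // (interior (T.P i ∩ {z | z 1 ≤ 0})).Nonempty}}
    (hP : ∀ i, Z.T.P i = T.P i.1 ∩ {z | z 1 ≤ 0})
    (hR : Z.T.R = T.R ∩ {z | z 1 ≤ 0}) (hS : Z.T.Sharp)
    {i : {i : ι // (interior (T.P i ∩ {z | z 1 ≤ 0})).Nonempty}}
    (hlow : ∀ z ∈ T.P i.1, z 1 < 0) (hint : T.P i.1 ⊆ interior T.R) :
    Z.T.P i = T.P i.1 ∧ Z.T.verts i = T.verts i.1 ∧ Z.T.edges i = T.edges i.1 ∧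
      Z.T.bdEdges i = ∅ ∧ (∀ j, Z.T.common i j = T.common i.1 j.1) ∧
      ∀ j d, d ∈ Z.T.common j i ↔ d ∈ T.common j.1 i.1 := by
  refine full_tile (e := Subtype.val) hP hR hS hlow hint ?_
  intro w hw hwi
  rcases hT w hw with h | ⟨k, hk⟩
  · exact absurd (hint hwi) h
  · exact ⟨⟨k, T.low_index hk.1 (hlow w hwi)⟩, hk⟩

end C2305b.TL
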