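import Mathlib

/-!
# Choice of the transition level (MP_c2305b_co, row 552, section 5)
-/

namespace C2305bG

open Classical in
/-- **Pigeonhole over the levels** `T0 + s k`, `k < K`, `K = ⌊T0 / s⌋`: some level `Tc` between
`T0` and `2 T0` has at most `#S / K` elements at distance at most `C4`. -/
theorem exists_level {ι : Type*} (S : Finset ι) (f : ι → ℝ) {T0 C4 s : ℝ} (hC : 0 ≤ C4)
    (hs : 2 * C4 < s) (hT0 : 0 ≤ T0) : ∃ (K : ℕ) (Tc : ℝ), T0 ≤ Tc ∧ Tc ≤ 2 * T0 ∧
      s * K ≤ T0 ∧ T0 < s * (K + 1) ∧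
      ((S.filter fun i => |f i - Tc| ≤ C4).card : ℝ) * K ≤ (S.card : ℝ) := by
  have hs0 : 0 < s := by linarith
  obtain ⟨K, hK⟩ : ∃ K : ℕ, K = ⌊T0 / s⌋₊ := ⟨_, rfl⟩
  have h1 : s * K ≤ T0 := by
    have := Nat.floor_le (a := T0 / s) (by positivity)
    rw [← hK, le_div_iff₀ hs0] at this
    linarith
  have h2 : T0 < s * (K + 1) := by
    have := Nat.lt_floor_add_one (T0 / s)
    rw [← hK, div_lt_iff₀ hs0] at this
    linarith
  rcases Nat.eq_zero_or_pos K with h0 | h0
  · refine ⟨K, T0, le_rfl, by linarith, h1, h2, ?_⟩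
    rw [h0]
    simp
  -- the level sets are disjoint
  obtain ⟨A, hA⟩ : ∃ A : ℕ → Finset ι,
      ∀ k, A k = S.filter fun i => |f i - (T0 + s * k)| ≤ C4 := ⟨_, fun _ => rfl⟩
  have hdis : (↑(Finset.range K) : Set ℕ).PairwiseDisjoint A := by
    intro k _ k' _ hkk
    rw [Function.onFun, Finset.disjoint_left]
    intro i hi hi'
    rw [hA, Finset.mem_filter] at hi hi'
    have h3 := abs_le.mp hi.2
    have h4 := abs_le.mp hi'.2
    apply hkk
    rcases lt_trichotomy k k' with h | h | h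
    · exfalso
      have h5 : (k : ℝ) + 1 ≤ k' := by exact_mod_cast h
      have h6 : s * ((k : ℝ) + 1) ≤ s * k' := mul_le_mul_of_nonneg_left h5 hs0.le
      linarith [h3.1, h3.2, h4.1, h4.2]
    · exact h
    · exfalso
      have h5 : (k' : ℝ) + 1 ≤ k := by exact_mod_cast h
      have h6 : s * ((k' : ℝ) + 1) ≤ s * k := mul_le_mul_of_nonneg_left h5 hs0.le
      linarith [h3.1, h3.2, h4.1, h4.2]
  have hsum : ∑ k ∈ Finset.range K, (A k).card ≤ S.card := by
    rw [← Finset.card_biUnion hdis]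
    apply Finset.card_le_card
    intro i hi
    obtain ⟨k, _, hk⟩ := Finset.mem_biUnion.mp hi
    rw [hA] at hk
    exact (Finset.mem_filter.mp hk).1
  obtain ⟨k, hk, hkm⟩ : ∃ k ∈ Finset.range K, (A k).card * K ≤ S.card := by
    by_contra hcon
    push Not at hcon
    have hne : (Finset.range K).Nonempty := ⟨0, Finset.mem_range.mpr h0⟩
    have h3 : ∑ k ∈ Finset.range K, S.card < ∑ k ∈ Finset.range K, (A k).card * K :=
      Finset.sum_lt_sum_of_nonempty hne hcon
    rw [Finset.sum_const, Finset.card_range, smul_eq_mul, ← Finset.sum_mul] at h3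
    have h4 := Nat.mul_le_mul_right K hsum
    rw [mul_comm] at h3
    omega
  rw [Finset.mem_range] at hk
  have hk1 : (k : ℝ) + 1 ≤ K := by exact_mod_cast hk
  have hk2 : s * ((k : ℝ) + 1) ≤ s * K := mul_le_mul_of_nonneg_left hk1 hs0.le
  have hk3 : 0 ≤ s * (k : ℝ) := by positivity
  refine ⟨K, T0 + s * k, by linarith, by linarith, h1, h2, ?_⟩
  rw [hA] at hkm
  exact_mod_cast hkm

end C2305bG
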